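import Pool.Agent.Lib.MP_af4f85_ag.Hedge.Graph

set_option autoImplicit false

namespace Pool.Agent.Lib.MP_af4f85_ag

open Filter Topology Module

/-- The inverse function theorem in chart form. -/
theorem chart_of_injective {n : ℕ} {Ψ : (Fin n → ℂ) → (Fin n → ℂ)} {b : Fin n → ℂ}
    (hΨ : AnalyticAt ℂ Ψ b) (h' : Function.Injective (fderiv ℂ Ψ b))
    {p : (Fin n → ℂ) → Prop} (hp : ∀ᶠ z in 𝓝 b, p z) :
    ∃ Θ : OpenPartialHomeomorph (Fin n → ℂ) (Fin n → ℂ), b ∈ Θ.source ∧ (∀ z, Θ z = Ψ z) ∧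
      AnalyticOnNhd ℂ Θ Θ.source ∧ AnalyticOnNhd ℂ Θ.symm Θ.target ∧ ∀ z ∈ Θ.source, p z := by
  let L1 : (Fin n → ℂ) ≃ₗ[ℂ] (Fin n → ℂ) :=
    LinearEquiv.ofInjectiveEndo (fderiv ℂ Ψ b : (Fin n → ℂ) →ₗ[ℂ] (Fin n → ℂ)) h'
  let L : (Fin n → ℂ) ≃L[ℂ] (Fin n → ℂ) := L1.toContinuousLinearEquiv
  have hL : (L : (Fin n → ℂ) →L[ℂ] (Fin n → ℂ)) = fderiv ℂ Ψ b := by
    ext1 z
    rfl
  have hd : HasFDerivAt Ψ (L : (Fin n → ℂ) →L[ℂ] (Fin n → ℂ)) b := by
    rw [hL]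
    exact hΨ.differentiableAt.hasFDerivAt
  have hcd : ContDiffAt ℂ ⊤ Ψ b := hΨ.contDiffAt
  have hne : (⊤ : WithTop ℕ∞) ≠ 0 := by simp
  let Θ0 := hcd.toOpenPartialHomeomorph Ψ hd hne
  have hΘ0 : ∀ z, Θ0 z = Ψ z := fun z => by
    rw [ContDiffAt.toOpenPartialHomeomorph_coe]
  have hb : b ∈ Θ0.source := hcd.mem_toOpenPartialHomeomorph_source hd hne
  have hinv : AnalyticAt ℂ Θ0.symm (Ψ b) := (hcd.to_localInverse hd hne).analyticAt
  obtain ⟨t, ht, hto, hbt⟩ := eventually_nhds_iff.mp hp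
  let s1 : Set (Fin n → ℂ) := {z | AnalyticAt ℂ Ψ z}
  have hs1 : IsOpen s1 := isOpen_analyticAt ℂ Ψ
  let s2 : Set (Fin n → ℂ) := {w | AnalyticAt ℂ Θ0.symm w}
  have hs2 : IsOpen s2 := isOpen_analyticAt ℂ _
  let s : Set (Fin n → ℂ) := (s1 ∩ t) ∩ (Θ0.source ∩ Θ0 ⁻¹' s2)
  have hs : IsOpen s := (hs1.inter hto).inter (Θ0.isOpen_inter_preimage hs2)
  refine ⟨Θ0.restrOpen s hs, ?_, fun z => hΘ0 z, ?_, ?_, ?_⟩
  · rw [OpenPartialHomeomorph.restrOpen_source]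
    refine ⟨hb, ⟨hΨ, hbt⟩, hb, ?_⟩
    change AnalyticAt ℂ Θ0.symm (Θ0 b)
    rw [hΘ0]
    exact hinv
  · intro z hz
    rw [OpenPartialHomeomorph.restrOpen_source] at hz
    have h1 : AnalyticAt ℂ Ψ z := hz.2.1.1
    exact h1.congr (Eventually.of_forall fun w => (hΘ0 w).symm)
  · intro w hw
    have h1 := (Θ0.restrOpen s hs).map_target hw
    rw [OpenPartialHomeomorph.restrOpen_source] at h1
    have h2 := (Θ0.restrOpen s hs).right_inv hw
    have h3 : AnalyticAt ℂ Θ0.symm (Θ0 ((Θ0.restrOpen s hs).symm w)) := h1.2.2.2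
    have h4 : Θ0 ((Θ0.restrOpen s hs).symm w) = w := h2
    rw [h4] at h3
    exact h3
  · intro z hz
    rw [OpenPartialHomeomorph.restrOpen_source] at hz
    exact ht z hz.2.1.2

/-- The main theorem in chart form, at arbitrary base points and with the codimension. -/
theorem smooth_image {n r : ℕ} (hr : r ≤ n) (f : (Fin n → ℂ) → (Fin n → ℂ))
    (V : Set (Fin n → ℂ)) (a : Fin n → ℂ) (hf : AnalyticAt ℂ f a)
    (hfin : ∀ᶠ z in 𝓝 a, f z = f a → z = a) {m : ℕ} (g : (Fin n → ℂ) → (Fin m → ℂ))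
    (hg : AnalyticAt ℂ g (f a)) (hV : ∀ᶠ y in 𝓝 (f a), y ∈ V ↔ g y = 0)
    (Φ : OpenPartialHomeomorph (Fin n → ℂ) (Fin n → ℂ)) (ha : a ∈ Φ.source) (haM : f a ∈ V)
    (hΦ1 : AnalyticOnNhd ℂ Φ Φ.source) (hΦ2 : AnalyticOnNhd ℂ Φ.symm Φ.target)
    (hM : ∀ z ∈ Φ.source, f z ∈ V ↔ ∀ i : Fin n, (i : ℕ) < r → Φ z i = 0) :
    ∃ Θ : OpenPartialHomeomorph (Fin n → ℂ) (Fin n → ℂ), f a ∈ Θ.source ∧
      AnalyticOnNhd ℂ Θ Θ.source ∧ AnalyticOnNhd ℂ Θ.symm Θ.target ∧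
      ∀ z ∈ Θ.source, z ∈ V ↔ ∀ i : Fin n, (i : ℕ) < r → Θ z i = 0 := by
  classical
  let E : Fin (n - r) ⊕ Fin r ≃ Fin n :=
    (Equiv.sumComm _ _).trans (finSumFinEquiv.trans (finCongr (by omega)))
  have hEr : ∀ l : Fin r, ((E (Sum.inr l) : Fin n) : ℕ) = l := by
    intro l
    simp [E]
  have hEl : ∀ j : Fin (n - r), ((E (Sum.inl j) : Fin n) : ℕ) = r + j := by
    intro j
    simp [E]
  have hEiff : ∀ z : Fin n → ℂ, (∀ i : Fin n, (i : ℕ) < r → z i = 0) ↔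
      ∀ l : Fin r, z (E (Sum.inr l)) = 0 := by
    intro z
    constructor
    · intro h l
      exact h _ (by rw [hEr]; exact l.2)
    · intro h i hi
      obtain ⟨t, rfl⟩ := E.surjective i
      rcases t with j | l
      · rw [hEl] at hi
        omega
      · exact h l
  let L : (Fin n → ℂ) ≃L[ℂ] (Fin (n - r) ⊕ Fin r → ℂ) :=
    (LinearEquiv.funCongrLeft ℂ ℂ E).toContinuousLinearEquiv
  have hL : ∀ z t, L z t = z (E t) := fun z t => rfl
  have hL0 : L.symm 0 = 0 := map_zero _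
  have hLt : Tendsto L (𝓝 0) (𝓝 0) := by
    have := L.continuous.tendsto 0
    rwa [map_zero] at this
  have hLst : Tendsto L.symm (𝓝 0) (𝓝 0) := by
    have := L.symm.continuous.tendsto 0
    rwa [map_zero] at this
  -- the point `Φ a`
  have hΦa : ∀ l : Fin r, Φ a (E (Sum.inr l)) = 0 := (hEiff _).mp ((hM a ha).mp haM)
  have htarget : Φ a ∈ Φ.target := Φ.map_source ha
  let χ : (Fin (n - r) ⊕ Fin r → ℂ) → (Fin n → ℂ) := fun x => Φ.symm (Φ a + L.symm x)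
  have hχ0 : χ 0 = a := by
    change Φ.symm (Φ a + L.symm 0) = a
    rw [hL0, add_zero]
    exact Φ.left_inv ha
  have hshift : AnalyticAt ℂ (fun x => Φ a + L.symm x) (0 : Fin (n - r) ⊕ Fin r → ℂ) :=
    analyticAt_const.add
      ((L.symm : (Fin (n - r) ⊕ Fin r → ℂ) →L[ℂ] (Fin n → ℂ)).analyticAt _)
  have hshift0 : Φ a + L.symm 0 = Φ a := by rw [hL0, add_zero]
  have hχ : AnalyticAt ℂ χ 0 := by
    refine AnalyticAt.comp (g := Φ.symm) ?_ hshift
    rw [hshift0]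
    exact hΦ2 _ htarget
  have hshiftt : Tendsto (fun x => Φ a + L.symm x) (𝓝 (0 : Fin (n - r) ⊕ Fin r → ℂ))
      (𝓝 (Φ a)) := by
    have := hshift.continuousAt.tendsto
    rwa [hshift0] at this
  have hχt : Tendsto χ (𝓝 0) (𝓝 a) := by
    have := hχ.continuousAt.tendsto
    rwa [hχ0] at this
  have hright : ∀ᶠ x in 𝓝 (0 : Fin (n - r) ⊕ Fin r → ℂ), Φ (χ x) = Φ a + L.symm x := by
    filter_upwards [hshiftt.eventually (Φ.open_target.mem_nhds htarget)] with x hx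
    exact Φ.right_inv hx
  have hsrc : ∀ᶠ x in 𝓝 (0 : Fin (n - r) ⊕ Fin r → ℂ), χ x ∈ Φ.source :=
    hχt.eventually (Φ.open_source.mem_nhds ha)
  have hfχ : AnalyticAt ℂ (fun x => f (χ x)) 0 := by
    refine AnalyticAt.comp (g := f) ?_ hχ
    rw [hχ0]
    exact hf
  have hfχt : Tendsto (fun x => f (χ x)) (𝓝 0) (𝓝 (f a)) := by
    have := hfχ.continuousAt.tendsto
    rwa [hχ0] at this
  obtain ⟨q, Φg, hΦg, hΦg0, hqΦ, hgraph⟩ := main_graph (fun x => L (f (χ x) - f a))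
    ((L : (Fin n → ℂ) →L[ℂ] (Fin (n - r) ⊕ Fin r → ℂ)).analyticAt _ |>.comp
      (hfχ.sub analyticAt_const))
    (by rw [hχ0, sub_self, map_zero])
    (by
      filter_upwards [hχt.eventually hfin, hright] with x h1 h2 h3
      have h4 : f (χ x) - f a = 0 := by
        rw [← map_zero L] at h3
        exact L.injective h3
      have h5 := h1 (sub_eq_zero.mp h4)
      rw [h5] at h2
      have h6 : L.symm x = 0 := by
        have := h2.symm
        rwa [add_eq_left] at this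
      exact (map_eq_zero_iff L.symm L.symm.injective).mp h6)
    (fun y => g (f a + L.symm y))
    (by
      refine AnalyticAt.comp (g := g) ?_ (analyticAt_const.add
        ((L.symm : (Fin (n - r) ⊕ Fin r → ℂ) →L[ℂ] (Fin n → ℂ)).analyticAt _))
      rw [hL0, add_zero]
      exact hg)
    (by
      filter_upwards [hfχt.eventually hV, hright, hsrc] with x h1 h2 h3
      have h4 : f a + L.symm (L (f (χ x) - f a)) = f (χ x) := by
        rw [ContinuousLinearEquiv.symm_apply_apply]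
        abel
      rw [h4, ← h1, hM _ h3, h2, hEiff]
      refine forall_congr' fun l => ?_
      rw [Pi.add_apply, hΦa, zero_add]
      have h5 : L.symm x (E (Sum.inr l)) = x (Sum.inr l) := by
        have h6 := congrFun (L.apply_symm_apply x) (Sum.inr l)
        exact h6
      rw [h5])
  -- `q` is surjective
  let qc : (Fin (n - r) ⊕ Fin r → ℂ) →L[ℂ] (Fin (n - r) → ℂ) := LinearMap.toContinuousLinearMap q
  have hqc : ∀ y, qc y = q y := fun y => rfl
  let Φ' := fderiv ℂ Φg 0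
  have hΦ' : HasFDerivAt Φg Φ' 0 := hΦg.differentiableAt.hasFDerivAt
  have hqΦ' : ∀ w, q (Φ' w) = w := by
    have h1 : HasFDerivAt (fun w => qc (Φg w)) (qc.comp Φ') 0 := qc.hasFDerivAt.comp 0 hΦ'
    have h2 : HasFDerivAt (fun w => qc (Φg w)) (ContinuousLinearMap.id ℂ _) 0 :=
      (hasFDerivAt_id (𝕜 := ℂ) (0 : Fin (n - r) → ℂ)).congr_of_eventuallyEq hqΦ
    have h3 := h1.unique h2
    intro w
    exact congrArg (fun T => T w) h3
  have hqsurj : Function.Surjective q := fun w => ⟨Φ' w, hqΦ' w⟩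
  -- a linear complement
  have hfr : finrank ℂ (LinearMap.ker q) = r := by
    have h1 := LinearMap.finrank_range_add_finrank_ker q
    rw [LinearMap.range_eq_top.mpr hqsurj, finrank_top, Module.finrank_fin_fun,
      Module.finrank_fintype_fun_eq_card, Fintype.card_sum, Fintype.card_fin,
      Fintype.card_fin] at h1
    omega
  let ℓ0 : LinearMap.ker q ≃ₗ[ℂ] (Fin r → ℂ) :=
    LinearEquiv.ofFinrankEq _ _ (by rw [Module.finrank_fin_fun, hfr])
  obtain ⟨ℓ, hℓ⟩ := LinearMap.exists_extend (ℓ0 : LinearMap.ker q →ₗ[ℂ] (Fin r → ℂ))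
  have hℓN : ∀ y (hy : q y = 0), ℓ y = ℓ0 ⟨y, hy⟩ := fun y hy => LinearMap.congr_fun hℓ ⟨y, hy⟩
  have hℓinj : ∀ y, q y = 0 → ℓ y = 0 → y = 0 := by
    intro y hy h
    rw [hℓN y hy, LinearEquiv.map_eq_zero_iff] at h
    exact congrArg Subtype.val h
  let ℓc : (Fin (n - r) ⊕ Fin r → ℂ) →L[ℂ] (Fin r → ℂ) := LinearMap.toContinuousLinearMap ℓ
  -- the chart
  let A : (Fin n → ℂ) → (Fin (n - r) ⊕ Fin r → ℂ) := fun z => L (z - f a)
  have hA : AnalyticAt ℂ A (f a) :=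
    (L : (Fin n → ℂ) →L[ℂ] (Fin (n - r) ⊕ Fin r → ℂ)).analyticAt _ |>.comp
      (analyticAt_id.sub analyticAt_const)
  have hA0 : A (f a) = 0 := by
    change L (f a - f a) = 0
    rw [sub_self, map_zero]
  have hAd : HasFDerivAt A (L : (Fin n → ℂ) →L[ℂ] (Fin (n - r) ⊕ Fin r → ℂ)) (f a) := by
    have h1 : HasFDerivAt (fun z : Fin n → ℂ => z - f a) (ContinuousLinearMap.id ℂ _) (f a) :=
      (hasFDerivAt_id (𝕜 := ℂ) (f a)).sub_const (f a)
    exact (L : (Fin n → ℂ) →L[ℂ] (Fin (n - r) ⊕ Fin r → ℂ)).hasFDerivAt.comp (f a) h1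
  have hAt : Tendsto A (𝓝 (f a)) (𝓝 0) := by
    have := hA.continuousAt.tendsto
    rwa [hA0] at this
  let W : (Fin (n - r) ⊕ Fin r → ℂ) → (Fin (n - r) ⊕ Fin r → ℂ) := fun y =>
    Sum.elim (qc y) (ℓc (y - Φg (qc y)))
  have hΦq : AnalyticAt ℂ (fun y => Φg (qc y)) 0 := by
    refine AnalyticAt.comp (g := Φg) ?_ (qc.analyticAt 0)
    rw [map_zero]
    exact hΦg
  have hW2 : AnalyticAt ℂ (fun y => ℓc (y - Φg (qc y))) 0 :=
    (ℓc.analyticAt _).comp (analyticAt_id.sub hΦq)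
  have hWan : AnalyticAt ℂ W 0 := by
    rw [analyticAt_pi_iff]
    rintro (i | l)
    · exact (analyticAt_pi_iff.mp (qc.analyticAt 0)) i
    · exact (analyticAt_pi_iff.mp hW2) l
  have hΦqd : HasFDerivAt (fun y => Φg (qc y)) (Φ'.comp qc) 0 := by
    refine HasFDerivAt.comp (g := Φg) 0 ?_ qc.hasFDerivAt
    rw [map_zero]
    exact hΦ'
  have hW2d : HasFDerivAt (fun y => ℓc (y - Φg (qc y)))
      (ℓc.comp (ContinuousLinearMap.id ℂ _ - Φ'.comp qc)) 0 :=
    ℓc.hasFDerivAt.comp 0 ((hasFDerivAt_id (𝕜 := ℂ) (0 : Fin (n - r) ⊕ Fin r → ℂ)).sub hΦqd)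
  have hWd : HasFDerivAt W (fderiv ℂ W 0) 0 := hWan.differentiableAt.hasFDerivAt
  have hWinj : Function.Injective (fderiv ℂ W 0) := by
    rw [injective_iff_map_eq_zero]
    intro v hv
    have h1 : ∀ i, (fderiv ℂ W 0 v) (Sum.inl i) = qc v i := by
      intro i
      have h2 := (hasFDerivAt_pi'.mp hWd) (Sum.inl i)
      have h3 : HasFDerivAt (fun y => W y (Sum.inl i))
          ((ContinuousLinearMap.proj i).comp qc) 0 :=
        (hasFDerivAt_pi'.mp (qc.hasFDerivAt (x := 0))) i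
      exact congrArg (fun T => T v) (h2.unique h3)
    have h1' : ∀ l, (fderiv ℂ W 0 v) (Sum.inr l) =
        (ℓc.comp (ContinuousLinearMap.id ℂ _ - Φ'.comp qc)) v l := by
      intro l
      have h2 := (hasFDerivAt_pi'.mp hWd) (Sum.inr l)
      have h3 : HasFDerivAt (fun y => W y (Sum.inr l))
          ((ContinuousLinearMap.proj l).comp
            (ℓc.comp (ContinuousLinearMap.id ℂ _ - Φ'.comp qc))) 0 :=
        (hasFDerivAt_pi'.mp hW2d) l
      exact congrArg (fun T => T v) (h2.unique h3)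
    have h2 : q v = 0 := by
      funext i
      rw [← hqc, ← h1, hv]
      rfl
    refine hℓinj v h2 ?_
    funext l
    have h3 := h1' l
    rw [hv] at h3
    have h4 : (ℓc.comp (ContinuousLinearMap.id ℂ _ - Φ'.comp qc)) v = ℓ (v - Φ' (q v)) := rfl
    rw [h4, h2, map_zero, sub_zero] at h3
    exact h3.symm
  let Ψ : (Fin n → ℂ) → (Fin n → ℂ) := fun z => L.symm (W (A z))
  have hWA : AnalyticAt ℂ (fun z => W (A z)) (f a) := by
    refine AnalyticAt.comp (g := W) ?_ hA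
    rw [hA0]
    exact hWan
  have hΨ : AnalyticAt ℂ Ψ (f a) :=
    ((L.symm : (Fin (n - r) ⊕ Fin r → ℂ) →L[ℂ] (Fin n → ℂ)).analyticAt _).comp hWA
  have hΨd : HasFDerivAt Ψ
      ((L.symm : (Fin (n - r) ⊕ Fin r → ℂ) →L[ℂ] (Fin n → ℂ)).comp
        ((fderiv ℂ W 0).comp (L : (Fin n → ℂ) →L[ℂ] (Fin (n - r) ⊕ Fin r → ℂ)))) (f a) := by
    refine (L.symm : (Fin (n - r) ⊕ Fin r → ℂ) →L[ℂ] (Fin n → ℂ)).hasFDerivAt.comp (f a) ?_
    refine HasFDerivAt.comp (g := W) (f a) ?_ hAd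
    rw [hA0]
    exact hWd
  have hΨinj : Function.Injective (fderiv ℂ Ψ (f a)) := by
    rw [hΨd.fderiv]
    exact L.symm.injective.comp (hWinj.comp L.injective)
  have hev : ∀ᶠ z in 𝓝 (f a), z ∈ V ↔ ∀ i : Fin n, (i : ℕ) < r → Ψ z i = 0 := by
    have hq0 : Tendsto (fun z => q (A z)) (𝓝 (f a)) (𝓝 0) := by
      have h1 : Tendsto q (𝓝 0) (𝓝 0) := by
        have := qc.continuous.tendsto 0
        rw [map_zero] at this
        exact this
      exact h1.comp hAt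
    filter_upwards [hV, hAt.eventually hgraph, hq0.eventually hqΦ] with z h1 h2 h3
    have h4 : f a + L.symm (A z) = z := by
      change f a + L.symm (L (z - f a)) = z
      rw [ContinuousLinearEquiv.symm_apply_apply]
      abel
    rw [h4] at h2
    rw [h1, h2, hEiff]
    have h5 : ∀ l : Fin r, Ψ z (E (Sum.inr l)) = ℓ (A z - Φg (q (A z))) l := by
      intro l
      exact congrFun (L.apply_symm_apply (W (A z))) (Sum.inr l)
    simp only [h5]
    constructor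
    · intro h6 l
      rw [← h6, sub_self, map_zero]
      rfl
    · intro h6
      have h7 : q (A z - Φg (q (A z))) = 0 := by rw [map_sub, h3, sub_self]
      have h8 := hℓinj _ h7 (funext h6)
      exact sub_eq_zero.mp h8
  obtain ⟨Θ, h1, h2, h3, h4, h5⟩ := chart_of_injective hΨ hΨinj hev
  refine ⟨Θ, h1, h3, h4, fun z hz => ?_⟩
  rw [h5 z hz, h2]

end Pool.Agent.Lib.MP_af4f85_ag
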