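import Pool.Agent.Lib.MP_af4f85_ag.Hedge.Formal1

set_option autoImplicit false

namespace Pool.Agent.Lib.MP_af4f85_ag

open MvPowerSeries

section lin

variable {σ τ : Type*} [Fintype σ] [Fintype τ] {k : Type*} [Field k]

theorem constantCoeff_lcomb' (g : σ → MvPowerSeries τ k) (h : ∀ i, constantCoeff (g i) = 0)
    (c : σ → k) : constantCoeff (lcomb g c) = 0 := constantCoeff_lcomb g h c

/-- a power series without constant term agrees with its linear part modulo `mm ^ 2` -/
theorem sub_lin_mem [DecidableEq σ] (b : MvPowerSeries σ k) (hb : constantCoeff b = 0) :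
    b - lcomb X (fun j => coeff (Finsupp.single j 1) b) ∈ mm σ k ^ 2 := by
  classical
  rw [mem_mm_pow_iff]
  intro γ hγ
  have h1 : ∀ j, coeff γ (C (coeff (Finsupp.single j 1) b) * X j : MvPowerSeries σ k) =
      if γ = Finsupp.single j 1 then coeff (Finsupp.single j 1) b else 0 := by
    intro j
    rw [← smul_eq_C_mul, map_smul, smul_eq_mul, coeff_X]
    split_ifs <;> simp
  rw [map_sub, lcomb, map_sum]
  simp only [h1]
  rcases Nat.eq_zero_or_pos γ.degree with h0 | hpos
  · have hγ0 : γ = 0 := (Finsupp.degree_eq_zero_iff γ).mp h0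
    subst hγ0
    rw [coeff_zero_eq_constantCoeff_apply, hb, zero_sub, neg_eq_zero]
    refine Finset.sum_eq_zero fun j _ => ?_
    rw [if_neg]
    intro h2
    have := congrArg (fun g => g j) h2
    simp at this
  · have h2 : γ.degree = 1 := by omega
    obtain ⟨j, rfl⟩ : ∃ j, γ = Finsupp.single j 1 := by
      have h3 : γ ≠ 0 := by
        rintro rfl
        simp at h2
      obtain ⟨j, hj⟩ := Finsupp.ne_iff.mp h3
      rw [Finsupp.zero_apply] at hj
      refine ⟨j, ?_⟩
      have h4 : Finsupp.single j 1 ≤ γ := by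
        rw [Finsupp.single_le_iff]
        omega
      obtain ⟨δ, rfl⟩ := exists_add_of_le h4
      rw [map_add, Finsupp.degree_single] at h2
      have h5 : δ = 0 := (Finsupp.degree_eq_zero_iff δ).mp (by omega)
      rw [h5, add_zero]
    rw [Finset.sum_eq_single j]
    · simp
    · intro i _ hi
      rw [if_neg]
      intro h6
      exact hi ((Finsupp.single_left_injective one_ne_zero h6).symm)
    · intro h
      exact absurd (Finset.mem_univ j) h

theorem map_lcomb_algHom (φ : MvPowerSeries σ k →ₐ[k] MvPowerSeries τ k) (c : σ → k) :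
    φ (lcomb X c) = lcomb (fun j => φ (X j)) c := by
  rw [lcomb, lcomb, map_sum]
  exact Finset.sum_congr rfl fun j _ => by rw [map_mul, algHom_C]

theorem sh_lcomb (f : σ → MvPowerSeries τ k) (h : ∀ i, constantCoeff (f i) = 0) (c : σ → k) :
    sh f h (lcomb X c) = lcomb f c := by
  rw [lcomb, lcomb, map_sum]
  exact Finset.sum_congr rfl fun j _ => by rw [map_mul, sh_C, sh_X]

theorem sh_mem_span (f : σ → MvPowerSeries τ k) (h : ∀ i, constantCoeff (f i) = 0)
    {a : MvPowerSeries σ k} (ha : constantCoeff a = 0) :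
    sh f h a ∈ Ideal.span (Set.range f) := by
  rw [← map_sh_mm f h]
  exact Ideal.mem_map_of_mem _ (mem_mm_iff.mpr ha)

/-- Nakayama for power series: it is enough to generate modulo `mm ^ 2`. -/
theorem mm_le_of_sq {I : Ideal (MvPowerSeries τ k)} (h : ∀ j, (X j : MvPowerSeries τ k) ∈
    I ⊔ mm τ k ^ 2) : mm τ k ≤ I := by
  refine Submodule.le_of_le_smul_of_le_jacobson_bot (I := mm τ k) mm_fg ?_ ?_
  · rw [mm_eq_maximalIdeal]
    exact IsLocalRing.maximalIdeal_le_jacobson _
  · rw [smul_eq_mul, ← pow_two]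
    unfold mm
    rw [Ideal.span_le]
    rintro _ ⟨j, rfl⟩
    exact h j

end lin

section coord

theorem coeff_single_lcomb {ι : Type*} [Fintype ι] [DecidableEq ι] {k : Type*} [Field k]
    (r : ι → k) (i : ι) :
    coeff (Finsupp.single i 1) (lcomb X r : MvPowerSeries ι k) = r i := by
  classical
  rw [lcomb, map_sum, Finset.sum_eq_single i]
  · rw [← smul_eq_C_mul, map_smul, smul_eq_mul, coeff_X, if_pos rfl, mul_one]
  · intro j _ hj
    rw [← smul_eq_C_mul, map_smul, smul_eq_mul, coeff_X, if_neg, mul_zero]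
    intro h5
    exact hj ((Finsupp.single_left_injective one_ne_zero h5).symm)
  · intro h
    exact absurd (Finset.mem_univ i) h

/-- Linear forms adapted to a surjection `k[[x]] → k[[w]]`. -/
theorem exists_lin {ι τ : Type*} [Fintype ι] [DecidableEq ι] [Fintype τ] [DecidableEq τ]
    {k : Type*} [Field k] [CharZero k] (π : MvPowerSeries τ k →ₐ[k] MvPowerSeries ι k)
    (hπ : Function.Surjective π) :
    ∃ (c : ι → τ → k) (h0 : ∀ i, constantCoeff (π (lcomb X (c i))) = 0),
      LinearIndependent k c ∧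
      Function.Bijective (shA (fun i => π (lcomb X (c i))) h0) := by
  classical
  choose b hb using fun i : ι => hπ (X i)
  have hb0 : ∀ i, constantCoeff (b i) = 0 := by
    intro i
    have h1 := congrArg constantCoeff (hb i)
    rwa [algHom_eq_sh π, constantCoeff_sh, constantCoeff_X] at h1
  let c : ι → τ → k := fun i j => coeff (Finsupp.single j 1) (b i)
  let q : ι → MvPowerSeries τ k := fun i => lcomb X (c i)
  have hq0 : ∀ i, constantCoeff (q i) = 0 := fun i =>
    constantCoeff_lcomb' _ (fun j => constantCoeff_X j) _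
  have hqπ : ∀ i, X i - π (q i) ∈ mm ι k ^ 2 := by
    intro i
    rw [← hb i, ← map_sub]
    exact algHom_mem_pow π (sub_lin_mem (b i) (hb0 i))
  have hπq0 : ∀ i, constantCoeff (π (q i)) = 0 := by
    intro i
    rw [algHom_eq_sh π, constantCoeff_sh, hq0]
  have hα : Function.Bijective (shA (fun i => π (q i)) hπq0) := by
    refine sh_bijective _ hπq0 (mm_le_of_sq fun j => ?_)
    have h1 : (X j : MvPowerSeries ι k) = π (q j) + (X j - π (q j)) := by ring
    rw [h1]
    exact Submodule.add_mem_sup (Ideal.subset_span ⟨j, rfl⟩) (hqπ j)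
  refine ⟨c, hπq0, ?_, hα⟩
  rw [Fintype.linearIndependent_iff]
  intro r hr
  have h1 : shA (fun i => π (q i)) hπq0 (lcomb X r) = 0 := by
    have h2 : (∑ i, r i • c i) = 0 := hr
    have h3 : lcomb (fun i => q i) r = 0 := by
      simp only [q]
      rw [lcomb_lcomb, h2]
      simp [lcomb]
    have h4 : shA (fun i => π (q i)) hπq0 (lcomb X r) = π (lcomb (fun i => q i) r) := by
      rw [shA_apply, sh_lcomb, lcomb, lcomb, map_sum]
      exact Finset.sum_congr rfl fun j _ => by rw [map_mul, algHom_C]
    rw [h4, h3, map_zero]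
  have h2 : lcomb X r = (0 : MvPowerSeries ι k) := hα.1 (by rw [h1, map_zero])
  intro i
  rw [← coeff_single_lcomb r i, h2, map_zero]

theorem card_le_of_surjective {ι τ : Type*} [Fintype ι] [DecidableEq ι] [Fintype τ]
    [DecidableEq τ] {k : Type*} [Field k] [CharZero k]
    (π : MvPowerSeries τ k →ₐ[k] MvPowerSeries ι k)
    (hπ : Function.Surjective π) : Fintype.card ι ≤ Fintype.card τ := by
  obtain ⟨c, -, hc, -⟩ := exists_lin π hπ
  have := hc.fintype_card_le_finrank
  rwa [Module.finrank_fintype_fun_eq_card] at this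

variable {ι κ : Type*} [Fintype ι] [DecidableEq ι] [Fintype κ] [DecidableEq κ] {k : Type*}
  [Field k] [CharZero k]

/-- Restriction to a coordinate subspace as an algebra homomorphism. -/
noncomputable def rstA : MvPowerSeries (ι ⊕ κ) k →ₐ[k] MvPowerSeries ι k :=
  shA (Sum.elim X (fun _ => 0)) (by
    rintro (i | l)
    · exact constantCoeff_X i
    · exact map_zero _)

omit [DecidableEq ι] [DecidableEq κ] [CharZero k] in
theorem rstA_apply (a : MvPowerSeries (ι ⊕ κ) k) : rstA a = rst a := rfl

/-- Adapted coordinates: a surjection `k[[x]] → k[[w]]` is, after a change of coordinates on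
both sides, the restriction to a coordinate subspace. -/
theorem exists_coord (π : MvPowerSeries (ι ⊕ κ) k →ₐ[k] MvPowerSeries ι k)
    (hπ : Function.Surjective π) :
    ∃ (β : MvPowerSeries (ι ⊕ κ) k →ₐ[k] MvPowerSeries (ι ⊕ κ) k)
      (α : MvPowerSeries ι k →ₐ[k] MvPowerSeries ι k),
      Function.Bijective β ∧ Function.Bijective α ∧ ∀ a, π (β a) = α (rst a) := by
  classical
  obtain ⟨c, hπq0, hc, hα⟩ := exists_lin π hπ
  let q : ι → MvPowerSeries (ι ⊕ κ) k := fun i => lcomb X (c i)
  have hq0 : ∀ i, constantCoeff (q i) = 0 := fun i =>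
    constantCoeff_lcomb' _ (fun j => constantCoeff_X j) _
  let α := shA (fun i => π (q i)) hπq0
  obtain ⟨B, hB⟩ := exists_basis_extending c hc
  -- the complementary coordinates
  have hex : ∀ l : κ, ∃ u : MvPowerSeries ι k, constantCoeff u = 0 ∧
      α u = π (lcomb X (B (Sum.inr l))) := by
    intro l
    obtain ⟨u, hu⟩ := hα.2 (π (lcomb X (B (Sum.inr l))))
    refine ⟨u, ?_, hu⟩
    have h1 := congrArg constantCoeff hu
    rw [algHom_eq_sh π, constantCoeff_sh, shA_apply, constantCoeff_sh,
      constantCoeff_lcomb' _ (fun j => constantCoeff_X j)] at h1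
    exact h1
  choose u hu0 hu using hex
  let g : ι ⊕ κ → MvPowerSeries (ι ⊕ κ) k :=
    Sum.elim q (fun l => lcomb X (B (Sum.inr l)) - sh q hq0 (u l))
  have hg0 : ∀ a, constantCoeff (g a) = 0 := by
    rintro (i | l)
    · exact hq0 i
    · change constantCoeff (lcomb X (B (Sum.inr l)) - sh q hq0 (u l)) = 0
      rw [map_sub, constantCoeff_lcomb' _ (fun j => constantCoeff_X j), constantCoeff_sh, hu0,
        sub_zero]
  have hspanq : Ideal.span (Set.range q) ≤ Ideal.span (Set.range g) := by
    refine Ideal.span_mono ?_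
    rintro _ ⟨i, rfl⟩
    exact ⟨Sum.inl i, rfl⟩
  have hgspan : mm (ι ⊕ κ) k ≤ Ideal.span (Set.range g) := by
    have h1 : ∀ a, lcomb X (B a) ∈ Ideal.span (Set.range g) := by
      rintro (i | l)
      · rw [hB]
        exact Ideal.subset_span ⟨Sum.inl i, rfl⟩
      · have h2 : lcomb X (B (Sum.inr l)) = g (Sum.inr l) + sh q hq0 (u l) := by
          change _ = (lcomb X (B (Sum.inr l)) - sh q hq0 (u l)) + sh q hq0 (u l)
          ring
        rw [h2]
        exact Ideal.add_mem _ (Ideal.subset_span ⟨Sum.inr l, rfl⟩)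
          (hspanq (sh_mem_span q hq0 (hu0 l)))
    unfold mm
    rw [Ideal.span_le]
    rintro _ ⟨j, rfl⟩
    have h2 := lcomb_basis (X : ι ⊕ κ → MvPowerSeries (ι ⊕ κ) k) B j
    rw [← h2]
    exact lcomb_mem _ _ _ h1
  refine ⟨shA g hg0, α, sh_bijective g hg0 hgspan, hα, fun a => ?_⟩
  have key : ∀ j, (π.comp (shA g hg0)) (X j) = (α.comp rstA) (X j) := by
    intro j
    rw [AlgHom.comp_apply, AlgHom.comp_apply, shA_X, rstA_apply]
    rcases j with i | l
    · rw [rst_X_inl]
      change π (q i) = α (X i)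
      rw [shA_X]
    · rw [rst_X_inr]
      change π (lcomb X (B (Sum.inr l)) - sh q hq0 (u l)) = α 0
      rw [map_zero, map_sub, ← hu l, sub_eq_zero]
      have h3 : ∀ a, (π.comp (shA q hq0)) a = α a := algHom_ext_X fun i => by
        rw [AlgHom.comp_apply, shA_X, shA_X]
      exact (h3 (u l)).symm
  exact algHom_ext_X key a

end coord

end Pool.Agent.Lib.MP_af4f85_ag
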