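import Pool.Agent.Lib.MP_af4f85_ag.FTGen

set_option autoImplicit false

namespace Pool.Agent.Lib.MP_af4f85_ag

open MvPowerSeries

section

variable {σ τ υ : Type*} [Finite σ] [Finite τ] [Finite υ] {k : Type*} [Field k]

theorem algHom_C (φ : MvPowerSeries σ k →ₐ[k] MvPowerSeries τ k) (c : k) : φ (C c) = C c := by
  have h := φ.commutes c
  rwa [MvPowerSeries.algebraMap_apply, MvPowerSeries.algebraMap_apply, Algebra.algebraMap_self,
    RingHom.id_apply] at h

/-- A `k`-algebra homomorphism between power series rings is local. -/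
theorem constantCoeff_algHom (φ : MvPowerSeries σ k →ₐ[k] MvPowerSeries τ k) (i : σ) :
    constantCoeff (φ (X i)) = 0 := by
  by_contra hne
  have h1 : IsUnit (X i - C (constantCoeff (φ (X i))) : MvPowerSeries σ k) := by
    rw [isUnit_iff_constantCoeff, map_sub, constantCoeff_X, constantCoeff_C, zero_sub,
      isUnit_iff_ne_zero]
    exact neg_ne_zero.mpr hne
  have h2 := h1.map φ
  rw [isUnit_iff_constantCoeff, map_sub, map_sub, algHom_C, constantCoeff_C, sub_self] at h2
  exact not_isUnit_zero h2

theorem algHom_mem_pow (φ : MvPowerSeries σ k →ₐ[k] MvPowerSeries τ k) {N : ℕ}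
    {a : MvPowerSeries σ k} (ha : a ∈ mm σ k ^ N) : φ a ∈ mm τ k ^ N := by
  have h1 : Ideal.map (φ : MvPowerSeries σ k →+* MvPowerSeries τ k) (mm σ k) ≤ mm τ k := by
    unfold mm
    rw [Ideal.map_span, Ideal.span_le]
    rintro _ ⟨_, ⟨i, rfl⟩, rfl⟩
    exact mem_mm_iff.mpr (constantCoeff_algHom φ i)
  have h2 : φ a ∈ Ideal.map (φ : MvPowerSeries σ k →+* MvPowerSeries τ k) (mm σ k ^ N) :=
    Ideal.mem_map_of_mem (φ : MvPowerSeries σ k →+* MvPowerSeries τ k) ha
  rw [Ideal.map_pow] at h2
  exact Ideal.pow_right_mono h1 N h2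

/-- A `k`-algebra homomorphism between power series rings is a substitution. -/
theorem algHom_eq_sh (φ : MvPowerSeries σ k →ₐ[k] MvPowerSeries τ k) (a : MvPowerSeries σ k) :
    φ a = sh (fun i => φ (X i)) (constantCoeff_algHom φ) a := by
  have hp : ∀ p : MvPolynomial σ k, φ (p : MvPowerSeries σ k) =
      sh (fun i => φ (X i)) (constantCoeff_algHom φ) (p : MvPowerSeries σ k) := by
    intro p
    induction p using MvPolynomial.induction_on with
    | C c => rw [MvPolynomial.coe_C, algHom_C, sh_C]
    | add p q hp hq => rw [MvPolynomial.coe_add, map_add, map_add, hp, hq]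
    | mul_X p i hp => rw [MvPolynomial.coe_mul, MvPolynomial.coe_X, map_mul, map_mul, hp, sh_X]
  rw [← sub_eq_zero]
  refine eq_zero_of_mem_pow fun N => ?_
  have h1 := sub_truncTotal_mem N a
  have h2 : φ a - sh (fun i => φ (X i)) (constantCoeff_algHom φ) a =
      φ (a - (truncTotal N a : MvPolynomial σ k)) -
      sh (fun i => φ (X i)) (constantCoeff_algHom φ) (a - (truncTotal N a : MvPolynomial σ k)) := by
    rw [map_sub, map_sub, hp]
    ring
  rw [h2]
  exact Ideal.sub_mem _ (algHom_mem_pow φ h1) (sh_mem_pow _ _ h1)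

theorem algHom_ext_X {φ ψ : MvPowerSeries σ k →ₐ[k] MvPowerSeries τ k}
    (h : ∀ i, φ (X i) = ψ (X i)) (a : MvPowerSeries σ k) : φ a = ψ a := by
  rw [algHom_eq_sh φ a, algHom_eq_sh ψ a]
  congr 1
  simp only [h]

/-- Substitution as an algebra homomorphism. -/
noncomputable def shA (f : σ → MvPowerSeries τ k) (h : ∀ i, constantCoeff (f i) = 0) :
    MvPowerSeries σ k →ₐ[k] MvPowerSeries τ k :=
  substAlgHom (R := k) (hasSubst_of_constantCoeff_zero h)

theorem shA_apply (f : σ → MvPowerSeries τ k) (h : ∀ i, constantCoeff (f i) = 0)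
    (a : MvPowerSeries σ k) : shA f h a = sh f h a := rfl

theorem shA_X (f : σ → MvPowerSeries τ k) (h : ∀ i, constantCoeff (f i) = 0)
    (i : σ) : shA f h (X i) = f i := sh_X f h i

/-- The formal inverse function theorem, surjectivity. -/
theorem sh_surjective (f : σ → MvPowerSeries τ k) (h : ∀ i, constantCoeff (f i) = 0)
    (hf : mm τ k ≤ Ideal.span (Set.range f)) : Function.Surjective (sh f h) := by
  have hfin : Module.Finite (MvPowerSeries σ k) (SubA f h) :=
    finite_of_prim f h ⟨1, by rwa [pow_one]⟩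
  let N : Submodule (MvPowerSeries σ k) (SubA f h) := Submodule.span _ {1}
  have h1 : (⊤ : Submodule (MvPowerSeries σ k) (SubA f h)) ≤ N := by
    refine Submodule.le_of_le_smul_of_le_jacobson_bot (I := mm σ k) hfin.fg_top ?_ ?_
    · rw [mm_eq_maximalIdeal]
      exact IsLocalRing.maximalIdeal_le_jacobson _
    · intro b _
      obtain ⟨b, rfl⟩ := (toSub f h).surjective b
      have h2 : toSub f h b = toSub f h (C (constantCoeff b)) +
          toSub f h (b - C (constantCoeff b)) := by
        rw [← map_add]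
        congr 1
        ring
      rw [h2]
      refine Submodule.add_mem_sup ?_ ?_
      · have h3 : toSub f h (C (constantCoeff b)) =
            (C (constantCoeff b) : MvPowerSeries σ k) • (1 : SubA f h) := by
          rw [Algebra.smul_def, algebraMap_subA, sh_C, mul_one]
        rw [h3]
        exact Submodule.smul_mem _ _ (Submodule.mem_span_singleton_self _)
      · rw [Ideal.smul_top_eq_map]
        have h4 : b - C (constantCoeff b) ∈ Ideal.map (sh f h) (mm σ k) := by
          rw [map_sh_mm]
          exact hf (mem_mm_iff.mpr (by simp))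
        exact h4
  intro b
  have h2 := h1 (Submodule.mem_top (x := toSub f h b))
  obtain ⟨a, ha⟩ := Submodule.mem_span_singleton.mp h2
  refine ⟨a, ?_⟩
  rw [Algebra.smul_def, mul_one, algebraMap_subA] at ha
  exact (toSub f h).injective ha

end

section

variable {σ : Type*} [Fintype σ] [DecidableEq σ] {k : Type*} [Field k] [CharZero k]

theorem sh_injective (f : σ → MvPowerSeries σ k) (h : ∀ i, constantCoeff (f i) = 0)
    (hf : Prim f) : Function.Injective (sh f h) :=
  (exists_pkg f h hf).some.inj

theorem sh_bijective (f : σ → MvPowerSeries σ k) (h : ∀ i, constantCoeff (f i) = 0)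
    (hf : mm σ k ≤ Ideal.span (Set.range f)) : Function.Bijective (sh f h) :=
  ⟨sh_injective f h ⟨1, by rwa [pow_one]⟩, sh_surjective f h hf⟩

theorem comap_map_sh (f : σ → MvPowerSeries σ k) (h : ∀ i, constantCoeff (f i) = 0)
    (hf : Prim f) (P : Ideal (MvPowerSeries σ k)) : (P.map (sh f h)).comap (sh f h) = P := by
  obtain ⟨hfin, hfree, -⟩ := T1 f h hf
  have hnt : Nontrivial (SubA f h) := inferInstance
  have hff : Module.FaithfullyFlat (MvPowerSeries σ k) (SubA f h) := inferInstance
  exact Ideal.comap_map_eq_self_of_faithfullyFlat (B := SubA f h) P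

theorem comap_radical_map_sh (f : σ → MvPowerSeries σ k) (h : ∀ i, constantCoeff (f i) = 0)
    (hf : Prim f) (P : Ideal (MvPowerSeries σ k)) :
    ((P.map (sh f h)).radical).comap (sh f h) = P.radical := by
  rw [Ideal.comap_radical, comap_map_sh f h hf]

/-- finite homomorphisms are given by primary systems -/
theorem prim_of_finite {φ : MvPowerSeries σ k →ₐ[k] MvPowerSeries σ k}
    (hφ : (φ : MvPowerSeries σ k →+* MvPowerSeries σ k).Finite) :
    Prim (fun i => φ (X i)) := by
  rw [prim_iff]
  intro 𝔮 h𝔮 hle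
  have h1 : mm σ k ≤ 𝔮.comap (φ : MvPowerSeries σ k →+* MvPowerSeries σ k) := by
    unfold mm
    rw [Ideal.span_le]
    rintro _ ⟨i, rfl⟩
    exact hle (Ideal.subset_span ⟨i, rfl⟩)
  have h2 : (𝔮.comap (φ : MvPowerSeries σ k →+* MvPowerSeries σ k)).IsMaximal := by
    have h3 : 𝔮.comap (φ : MvPowerSeries σ k →+* MvPowerSeries σ k) = mm σ k := by
      refine le_antisymm (le_mm _ ?_) h1
      exact (Ideal.comap_isPrime _ 𝔮).ne_top
    rw [h3]
    exact mm_isMaximal
  have h3 : 𝔮.IsMaximal := by
    have := hφ.to_isIntegral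
    exact Ideal.isMaximal_of_isIntegral_of_isMaximal_comap' _ this 𝔮 h2
  rw [mm_eq_maximalIdeal, IsLocalRing.eq_maximalIdeal h3]

end

end Pool.Agent.Lib.MP_af4f85_ag
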