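import Pool.Agent.Lib.MP_af4f85_ag.Hedge.Coord

set_option autoImplicit false

namespace Pool.Agent.Lib.MP_af4f85_ag

open MvPowerSeries

section

variable {ι κ : Type*} [Fintype ι] [DecidableEq ι] [Fintype κ] [DecidableEq κ] {k : Type*}
  [Field k] [CharZero k]

/-- The formal theorem, index type a sum. -/
theorem formal_sum (φ : MvPowerSeries (ι ⊕ κ) k →ₐ[k] MvPowerSeries (ι ⊕ κ) k)
    (hφ : (φ : MvPowerSeries (ι ⊕ κ) k →+* MvPowerSeries (ι ⊕ κ) k).Finite)
    (P : Ideal (MvPowerSeries (ι ⊕ κ) k))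
    (π : MvPowerSeries (ι ⊕ κ) k →ₐ[k] MvPowerSeries ι k) (hπ : Function.Surjective π)
    (hker : ∀ a, π a = 0 ↔
      a ∈ (P.map (φ : MvPowerSeries (ι ⊕ κ) k →+* MvPowerSeries (ι ⊕ κ) k)).radical) :
    ∃ θ : MvPowerSeries (ι ⊕ κ) k →ₐ[k] MvPowerSeries ι k, Function.Surjective θ ∧
      ∀ a, θ a = 0 ↔ a ∈ P.radical := by
  classical
  obtain ⟨β, α, hβ, hα, hc⟩ := exists_coord π hπ
  let βe : MvPowerSeries (ι ⊕ κ) k ≃ₐ[k] MvPowerSeries (ι ⊕ κ) k := AlgEquiv.ofBijective β hβ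
  have hβe : ∀ a, βe a = β a := fun a => rfl
  let φ' : MvPowerSeries (ι ⊕ κ) k →ₐ[k] MvPowerSeries (ι ⊕ κ) k :=
    (βe.symm : MvPowerSeries (ι ⊕ κ) k →ₐ[k] MvPowerSeries (ι ⊕ κ) k).comp φ
  have hφ'a : ∀ a, β (φ' a) = φ a := fun a => βe.apply_symm_apply (φ a)
  have hφ'fin : (φ' : MvPowerSeries (ι ⊕ κ) k →+* MvPowerSeries (ι ⊕ κ) k).Finite := by
    have h1 : (φ' : MvPowerSeries (ι ⊕ κ) k →+* MvPowerSeries (ι ⊕ κ) k) =
        ((βe.symm : MvPowerSeries (ι ⊕ κ) k →ₐ[k] MvPowerSeries (ι ⊕ κ) k) :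
          MvPowerSeries (ι ⊕ κ) k →+* MvPowerSeries (ι ⊕ κ) k).comp
        (φ : MvPowerSeries (ι ⊕ κ) k →+* MvPowerSeries (ι ⊕ κ) k) := rfl
    rw [h1]
    exact RingHom.Finite.comp (RingHom.Finite.of_surjective _ βe.symm.surjective) hφ
  let f : ι ⊕ κ → MvPowerSeries (ι ⊕ κ) k := fun a => φ' (X a)
  have h0 : ∀ a, constantCoeff (f a) = 0 := constantCoeff_algHom φ'
  have hf : Prim f := prim_of_finite hφ'fin
  have hshf : ∀ a, sh f h0 a = φ' a := fun a => (algHom_eq_sh φ' a).symm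
  have h0' : ∀ a, constantCoeff (rst (f a)) = 0 := fun a => by
    rw [constantCoeff_rst, h0]
  -- the ideal of the preimage in the new coordinates
  have hmapeq : P.map (sh f h0) =
      P.map (φ' : MvPowerSeries (ι ⊕ κ) k →+* MvPowerSeries (ι ⊕ κ) k) := by
    congr 1
    ext1 a
    exact hshf a
  have hmem : ∀ a, a ∈ P.map (sh f h0) ↔
      β a ∈ P.map (φ : MvPowerSeries (ι ⊕ κ) k →+* MvPowerSeries (ι ⊕ κ) k) := by
    intro a
    have h1 : P.map (sh f h0) =
        (P.map (φ : MvPowerSeries (ι ⊕ κ) k →+* MvPowerSeries (ι ⊕ κ) k)).map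
        (βe.symm.toRingEquiv : MvPowerSeries (ι ⊕ κ) k →+* MvPowerSeries (ι ⊕ κ) k) := by
      rw [hmapeq, Ideal.map_map]
      rfl
    rw [h1]
    constructor
    · intro h
      obtain ⟨x, hx, hxa⟩ := (Ideal.mem_map_of_equiv βe.symm.toRingEquiv a).mp h
      have h2 : βe.symm x = a := hxa
      rw [← h2]
      have h3 : β (βe.symm x) = x := βe.apply_symm_apply x
      rwa [h3]
    · intro h
      refine (Ideal.mem_map_of_equiv βe.symm.toRingEquiv a).mpr ⟨β a, h, ?_⟩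
      exact βe.symm_apply_apply a
  have hNN : ∀ a, a ∈ NN ι κ k ↔ a ∈ (P.map (sh f h0)).radical := by
    intro a
    rw [← rst_eq_zero_iff, ← map_eq_zero_iff α hα.1, ← hc, hker]
    rw [Ideal.mem_radical_iff, Ideal.mem_radical_iff]
    refine exists_congr fun N => ?_
    rw [hmem, map_pow]
  have hH : NN ι κ k ≤ ((RingHom.ker (rst.comp (sh f h0))).map (sh f h0)).radical := by
    intro a ha
    refine Ideal.radical_mono (Ideal.map_mono ?_) ((hNN a).mp ha)
    intro p hp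
    rw [RingHom.mem_ker, RingHom.comp_apply, rst_eq_zero_iff, hNN]
    exact Ideal.le_radical (Ideal.mem_map_of_mem _ hp)
  obtain ⟨c, φj, hψprim, hfac⟩ := FT_gen f h0 hf hH h0'
  let ψ : ι → MvPowerSeries ι k := fun i => lcomb (fun a => rst (f a)) (c i)
  have hψ0 : ∀ i, constantCoeff (ψ i) = 0 := fun i => constantCoeff_lcomb _ h0' _
  have hinj : Function.Injective (sh ψ hψ0) := sh_injective ψ hψ0 hψprim
  have hφj0 : ∀ j, constantCoeff (φj j) = 0 := by
    intro j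
    have h1 := congrArg constantCoeff (hfac j)
    rw [h0' j, constantCoeff_sh] at h1
    exact h1.symm
  let θ : MvPowerSeries (ι ⊕ κ) k →ₐ[k] MvPowerSeries ι k := shA φj hφj0
  have hkey : ∀ a, rst (sh f h0 a) = sh ψ hψ0 (θ a) := by
    intro a
    have h1 : ∀ b, ((rstA : MvPowerSeries (ι ⊕ κ) k →ₐ[k] MvPowerSeries ι k).comp φ') b =
        ((shA ψ hψ0).comp θ) b := algHom_ext_X fun j => by
      change rst (f j) = sh ψ hψ0 (shA φj hφj0 (X j))
      rw [shA_X]
      exact hfac j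
    rw [hshf]
    exact h1 a
  have hθX : ∀ i, θ (lcomb X (c i)) = X i := by
    intro i
    apply hinj
    rw [← hkey, sh_lcomb, sh_X, lcomb, map_sum]
    change _ = lcomb _ _
    rw [lcomb]
    exact Finset.sum_congr rfl fun j _ => by rw [map_mul, rst_C]
  refine ⟨θ, ?_, fun a => ?_⟩
  · intro b
    have hc0 : ∀ i, constantCoeff (lcomb X (c i) : MvPowerSeries (ι ⊕ κ) k) = 0 := fun i =>
      constantCoeff_lcomb' _ (fun j => constantCoeff_X j) _
    refine ⟨shA (fun i => lcomb X (c i)) hc0 b, ?_⟩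
    have h1 : ∀ b, (θ.comp (shA (fun i => lcomb X (c i)) hc0)) b = (AlgHom.id k _) b :=
      algHom_ext_X fun i => by
        rw [AlgHom.comp_apply, shA_X, hθX, AlgHom.id_apply]
    exact h1 b
  · rw [← map_eq_zero_iff (sh ψ hψ0) hinj, ← hkey, rst_eq_zero_iff, hNN,
      ← comap_radical_map_sh f h0 hf P, Ideal.mem_comap]

end

/-- The formal theorem: over every field of characteristic zero, if the reduced preimage of a
formal germ under a finite map is smooth, so is the (reduced) germ. -/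
theorem formal_main {k : Type*} [Field k] [CharZero k] (n s : ℕ)
    (φ : MvPowerSeries (Fin n) k →ₐ[k] MvPowerSeries (Fin n) k)
    (hφ : (φ : MvPowerSeries (Fin n) k →+* MvPowerSeries (Fin n) k).Finite)
    (P : Ideal (MvPowerSeries (Fin n) k))
    (h : Nonempty ((MvPowerSeries (Fin n) k ⧸
      (P.map (φ : MvPowerSeries (Fin n) k →+* MvPowerSeries (Fin n) k)).radical) ≃ₐ[k]
        MvPowerSeries (Fin s) k)) :
    Nonempty ((MvPowerSeries (Fin n) k ⧸ P.radical) ≃ₐ[k] MvPowerSeries (Fin s) k) := by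
  classical
  obtain ⟨e⟩ := h
  set I := (P.map (φ : MvPowerSeries (Fin n) k →+* MvPowerSeries (Fin n) k)).radical with hI
  let π0 : MvPowerSeries (Fin n) k →ₐ[k] MvPowerSeries (Fin s) k :=
    (e : _ →ₐ[k] MvPowerSeries (Fin s) k).comp (Ideal.Quotient.mkₐ k I)
  have hπ0 : Function.Surjective π0 :=
    e.surjective.comp (Ideal.Quotient.mkₐ_surjective k I)
  have hπ0k : ∀ a, π0 a = 0 ↔ a ∈ I := by
    intro a
    have h1 : π0 a = e (Ideal.Quotient.mk I a) := rfl
    rw [h1, map_eq_zero_iff e e.injective, Ideal.Quotient.eq_zero_iff_mem]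
  have hsn : s ≤ n := by
    have := card_le_of_surjective π0 hπ0
    rwa [Fintype.card_fin, Fintype.card_fin] at this
  let E : Fin s ⊕ Fin (n - s) ≃ Fin n := finSumFinEquiv.trans (finCongr (by omega))
  let ρ : MvPowerSeries (Fin s ⊕ Fin (n - s)) k →ₐ[k] MvPowerSeries (Fin n) k :=
    shA (fun t => X (E t)) (fun t => constantCoeff_X _)
  let ρ' : MvPowerSeries (Fin n) k →ₐ[k] MvPowerSeries (Fin s ⊕ Fin (n - s)) k :=
    shA (fun t => X (E.symm t)) (fun t => constantCoeff_X _)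
  have hρρ' : ∀ a, ρ (ρ' a) = a := by
    intro a
    have h1 : ∀ a, (ρ.comp ρ') a = (AlgHom.id k _) a := algHom_ext_X fun i => by
      rw [AlgHom.comp_apply, shA_X, shA_X, E.apply_symm_apply, AlgHom.id_apply]
    exact h1 a
  have hρ'ρ : ∀ a, ρ' (ρ a) = a := by
    intro a
    have h1 : ∀ a, (ρ'.comp ρ) a = (AlgHom.id k _) a := algHom_ext_X fun i => by
      rw [AlgHom.comp_apply, shA_X, shA_X, E.symm_apply_apply, AlgHom.id_apply]
    exact h1 a
  let R : MvPowerSeries (Fin s ⊕ Fin (n - s)) k ≃ₐ[k] MvPowerSeries (Fin n) k :=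
    AlgEquiv.ofAlgHom ρ ρ' (by ext1 a; exact hρρ' a) (by ext1 a; exact hρ'ρ a)
  have hR : ∀ a, R a = ρ a := fun a => rfl
  have hR' : ∀ a, R.symm a = ρ' a := fun a => rfl
  let φ1 : MvPowerSeries (Fin s ⊕ Fin (n - s)) k →ₐ[k] MvPowerSeries (Fin s ⊕ Fin (n - s)) k :=
    (ρ'.comp φ).comp ρ
  have hφ1 : (φ1 : MvPowerSeries (Fin s ⊕ Fin (n - s)) k →+*
      MvPowerSeries (Fin s ⊕ Fin (n - s)) k).Finite := by
    have h1 : (φ1 : MvPowerSeries (Fin s ⊕ Fin (n - s)) k →+*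
      MvPowerSeries (Fin s ⊕ Fin (n - s)) k) =
        ((ρ' : MvPowerSeries (Fin n) k →+* MvPowerSeries (Fin s ⊕ Fin (n - s)) k).comp
        (φ : MvPowerSeries (Fin n) k →+* MvPowerSeries (Fin n) k)).comp
        (ρ : MvPowerSeries (Fin s ⊕ Fin (n - s)) k →+* MvPowerSeries (Fin n) k) := rfl
    rw [h1]
    exact RingHom.Finite.comp (RingHom.Finite.comp
      (RingHom.Finite.of_surjective _ R.symm.surjective) hφ)
      (RingHom.Finite.of_surjective _ R.surjective)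
  let P1 : Ideal (MvPowerSeries (Fin s ⊕ Fin (n - s)) k) := P.comap
    (ρ : MvPowerSeries (Fin s ⊕ Fin (n - s)) k →+* MvPowerSeries (Fin n) k)
  have hP1 : P1 = P.map
      (ρ' : MvPowerSeries (Fin n) k →+* MvPowerSeries (Fin s ⊕ Fin (n - s)) k) := by
    ext a
    rw [Ideal.mem_comap]
    constructor
    · intro h1
      have h2 := Ideal.mem_map_of_mem
        (ρ' : MvPowerSeries (Fin n) k →+* MvPowerSeries (Fin s ⊕ Fin (n - s)) k) h1
      have h3 : (ρ' : MvPowerSeries (Fin n) k →+* MvPowerSeries (Fin s ⊕ Fin (n - s)) k)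
        ((ρ : MvPowerSeries (Fin s ⊕ Fin (n - s)) k →+* MvPowerSeries (Fin n) k) a) = a :=
        hρ'ρ a
      rwa [h3] at h2
    · intro h1
      obtain ⟨x, hx, hxa⟩ := (Ideal.mem_map_of_equiv R.symm.toRingEquiv a).mp h1
      have h2 : ρ' x = a := hxa
      have h3 : ρ a = x := by rw [← h2, hρρ']
      change ρ a ∈ P
      rwa [h3]
  have hmem1 : ∀ a, a ∈ P1.map (φ1 : MvPowerSeries (Fin s ⊕ Fin (n - s)) k →+*
      MvPowerSeries (Fin s ⊕ Fin (n - s)) k) ↔
      ρ a ∈ P.map (φ : MvPowerSeries (Fin n) k →+* MvPowerSeries (Fin n) k) := by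
    intro a
    have h1 : P1.map (φ1 : MvPowerSeries (Fin s ⊕ Fin (n - s)) k →+*
      MvPowerSeries (Fin s ⊕ Fin (n - s)) k) =
        (P.map (φ : MvPowerSeries (Fin n) k →+* MvPowerSeries (Fin n) k)).map
        (R.symm.toRingEquiv : MvPowerSeries (Fin n) k →+*
          MvPowerSeries (Fin s ⊕ Fin (n - s)) k) := by
      rw [hP1, Ideal.map_map, Ideal.map_map]
      congr 1
      ext1 x
      change ρ' (φ (ρ (ρ' x))) = ρ' (φ x)
      rw [hρρ']
    rw [h1]
    constructor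
    · intro h
      obtain ⟨x, hx, hxa⟩ := (Ideal.mem_map_of_equiv R.symm.toRingEquiv a).mp h
      have h2 : ρ' x = a := hxa
      rw [← h2, hρρ']
      exact hx
    · intro h
      exact (Ideal.mem_map_of_equiv R.symm.toRingEquiv a).mpr ⟨ρ a, h, hρ'ρ a⟩
  obtain ⟨θ, hθ, hθk⟩ := formal_sum φ1 hφ1 P1 (π0.comp ρ) (hπ0.comp R.surjective) (by
    intro a
    rw [AlgHom.comp_apply, hπ0k, hI, Ideal.mem_radical_iff, Ideal.mem_radical_iff]
    refine exists_congr fun N => ?_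
    rw [hmem1, map_pow])
  have hsurj : Function.Surjective (θ.comp ρ') := hθ.comp R.symm.surjective
  have hker : RingHom.ker (θ.comp ρ') = P.radical := by
    ext a
    rw [RingHom.mem_ker, AlgHom.comp_apply, hθk, Ideal.mem_radical_iff, Ideal.mem_radical_iff]
    refine exists_congr fun N => ?_
    rw [← map_pow, Ideal.mem_comap]
    have h1 : (ρ : MvPowerSeries (Fin s ⊕ Fin (n - s)) k →+* MvPowerSeries (Fin n) k)
      (ρ' (a ^ N)) = a ^ N := hρρ' (a ^ N)
    rw [h1]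
  rw [← hker]
  exact ⟨Ideal.quotientKerAlgEquivOfSurjective hsurj⟩

end Pool.Agent.Lib.MP_af4f85_ag
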