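import Pool.Agent.Lib.MP_af4f85_ag.Assembly
import Pool.Agent.Lib.MP_af4f85_ag.Straighten

set_option autoImplicit false

namespace Pool.Agent.Lib.MP_af4f85_ag

open MvPowerSeries Filter Topology Module

section

variable {ι κ : Type*}

/-- The main theorem in straightened coordinates, graph form. -/
theorem main_graph [Fintype ι] [Fintype κ] {m : ℕ} (f : (ι ⊕ κ → ℂ) → (ι ⊕ κ → ℂ))
    (hf : AnalyticAt ℂ f 0)
    (f0 : f 0 = 0) (hiso : ∀ᶠ x in 𝓝 (0 : ι ⊕ κ → ℂ), f x = 0 → x = 0)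
    (g : (ι ⊕ κ → ℂ) → (Fin m → ℂ)) (hg : AnalyticAt ℂ g 0)
    (hpre : ∀ᶠ x in 𝓝 (0 : ι ⊕ κ → ℂ), g (f x) = 0 ↔ ∀ l, x (Sum.inr l) = 0) :
    ∃ (q : (ι ⊕ κ → ℂ) →ₗ[ℂ] (ι → ℂ)) (Φ : (ι → ℂ) → (ι ⊕ κ → ℂ)), AnalyticAt ℂ Φ 0 ∧
      Φ 0 = 0 ∧ (∀ᶠ w in 𝓝 (0 : ι → ℂ), q (Φ w) = w) ∧
      ∀ᶠ y in 𝓝 (0 : ι ⊕ κ → ℂ), g y = 0 ↔ y = Φ (q y) := by
  classical
  -- the power series
  have hfa : ∀ a, AnalyticAt ℂ (fun x => f x a) 0 := fun a => (analyticAt_pi_iff.mp hf) a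
  choose F hF using fun a => An.exists_reps (hfa a)
  have hga : ∀ j, AnalyticAt ℂ (fun y => g y j) 0 := fun j => (analyticAt_pi_iff.mp hg) j
  choose G hG using fun j => An.exists_reps (hga j)
  have hF0 : ∀ a, constantCoeff (F a) = 0 := fun a => by
    rw [Reps.constantCoeff (hF a), f0]
    rfl
  have hF0' : ∀ a, constantCoeff (rst (F a)) = 0 := fun a => by
    rw [constantCoeff_rst, hF0]
  have hprim : Prim F := by
    refine prim_of_pow_mem fun l => An.nullstellensatz (fu := fun a x => f x a) hF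
      (An.reps_X l) ?_
    filter_upwards [hiso] with x hx h
    rw [hx (funext h)]
    rfl
  -- pullback of `g`
  have hGF : ∀ j, Reps (sh F hF0 (G j)) (fun x => g (f x) j) := fun j =>
    reps_sh (g := fun a x => f x a) hF hF0 (hG j)
  have hfez : ∀ᶠ x in 𝓝 (0 : ι → ℂ), g (f (ez x)) = 0 := by
    filter_upwards [tendsto_ez.eventually hpre] with x hx
    exact hx.mpr fun l => rfl
  have hker : ∀ j, G j ∈ RingHom.ker (rst.comp (sh F hF0)) := by
    intro j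
    rw [RingHom.mem_ker, RingHom.comp_apply]
    refine Reps.eq_zero (reps_rst (hGF j)) ?_
    filter_upwards [hfez] with x hx
    rw [hx]
    rfl
  have hH : NN ι κ ℂ ≤ ((RingHom.ker (rst.comp (sh F hF0))).map (sh F hF0)).radical := by
    unfold NN
    rw [Ideal.span_le]
    rintro _ ⟨l, rfl⟩
    obtain ⟨K, hK⟩ := An.nullstellensatz (u := fun j => sh F hF0 (G j))
      (fu := fun j x => g (f x) j) (h := X (Sum.inr l)) (fh := fun x => x (Sum.inr l)) hGF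
      (An.reps_X _) (by
        filter_upwards [hpre] with x hx h
        exact hx.mp (funext h) l)
    refine ⟨K, (Ideal.span_le.mpr ?_) hK⟩
    rintro _ ⟨j, rfl⟩
    exact Ideal.mem_map_of_mem _ (hker j)
  obtain ⟨c, φj, hψprim, hfac⟩ := FT_gen F hF0 hprim hH hF0'
  -- the analytic functions
  set ψ : ι → MvPowerSeries ι ℂ := fun i => lcomb (fun a => rst (F a)) (c i) with hψ
  have hψ0 : ∀ i, constantCoeff (ψ i) = 0 := fun i => constantCoeff_lcomb _ hF0' _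
  let q : (ι ⊕ κ → ℂ) →ₗ[ℂ] (ι → ℂ) := LinearMap.pi fun i =>
    ∑ j, c i j • (LinearMap.proj j : (ι ⊕ κ → ℂ) →ₗ[ℂ] ℂ)
  have hq : ∀ y i, q y i = ∑ j, c i j * y j := fun y i => by
    simp [q, LinearMap.pi_apply]
  have hqc : Continuous q := (LinearMap.toContinuousLinearMap q).continuous
  have hψreps : ∀ i, Reps (ψ i) (fun x => q (f (ez x)) i) := by
    intro i
    simp only [hq]
    exact reps_lcomb (fun j => reps_rst (hF j)) (c i)
  have hconv : ∀ j, Conv (φj j) := by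
    intro j
    refine conv_of_subst (ψ := ψ) (fun i => (hψreps i).1) hψ0 hψprim ?_
    rw [← sh_apply ψ hψ0, ← hfac j]
    exact (reps_rst (hF j)).1
  choose φt hφt using fun j => (⟨_, An.Conv.reps (hconv j)⟩ : ∃ φ, Reps (φj j) φ)
  let Φ : (ι → ℂ) → (ι ⊕ κ → ℂ) := fun w j => φt j w
  have hΦan : AnalyticAt ℂ Φ 0 := by
    rw [analyticAt_pi_iff]
    exact fun j => (hφt j).analyticAt
  let ψt : (ι → ℂ) → (ι → ℂ) := fun x => q (f (ez x))
  have hψt0 : ψt 0 = 0 := by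
    simp only [ψt]
    rw [ez_zero, f0, map_zero]
  have hE1 : ∀ᶠ x in 𝓝 (0 : ι → ℂ), f (ez x) = Φ (ψt x) := by
    have h1 : ∀ j, ∀ᶠ x in 𝓝 (0 : ι → ℂ), f (ez x) j = Φ (ψt x) j := by
      intro j
      have h2 : Reps (rst (F j)) (fun x => φt j (ψt x)) := by
        rw [hfac j]
        exact reps_sh (g := fun i x => q (f (ez x)) i) hψreps _ (hφt j)
      exact Reps.eventuallyEq (reps_rst (hF j)) h2
    filter_upwards [eventually_all.mpr h1] with x hx
    exact funext hx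
  have hΦ0 : Φ 0 = 0 := by
    have := hE1.self_of_nhds
    rw [ez_zero, f0, hψt0] at this
    exact this.symm
  -- openness
  have hopenf : ∀ {U : Set (ι ⊕ κ → ℂ)}, U ∈ 𝓝 (0 : ι ⊕ κ → ℂ) → f '' U ∈ 𝓝 (0 : ι ⊕ κ → ℂ) := by
    intro U hU
    have := An.finite_map_open (g := fun a x => f x a) hfa (fun a => by rw [f0]; rfl) (by
      rw [eventually_nhdsWithin_iff]
      filter_upwards [hiso] with x hx hne h0
      exact hne (hx h0)) hU
    exact this
  have hψtan : ∀ i, AnalyticAt ℂ (fun x => ψt x i) 0 := fun i => (hψreps i).analyticAt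
  have hopenψ : ∀ {U : Set (ι → ℂ)}, U ∈ 𝓝 (0 : ι → ℂ) → ψt '' U ∈ 𝓝 (0 : ι → ℂ) := by
    intro U hU
    have := An.finite_map_open (g := fun a x => ψt x a) hψtan (fun a => by rw [hψt0]; rfl) (by
      rw [eventually_nhdsWithin_iff]
      filter_upwards [hE1, tendsto_ez.eventually hiso] with x hx hx2 hne h0
      have h1 : ψt x = 0 := h0
      rw [h1, hΦ0] at hx
      apply hne
      have h2 := hx2 hx
      rw [Set.mem_singleton_iff]
      funext i
      exact congrFun h2 (Sum.inl i)) hU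
    exact this
  -- `q ∘ Φ = id`
  have hE2 : ∀ᶠ w in 𝓝 (0 : ι → ℂ), q (Φ w) = w := by
    filter_upwards [hopenψ hE1] with w hw
    obtain ⟨x, hx, rfl⟩ := hw
    have hx' : f (ez x) = Φ (ψt x) := hx
    rw [← hx']
  refine ⟨q, Φ, hΦan, hΦ0, hE2, ?_⟩
  have hq0 : Tendsto q (𝓝 0) (𝓝 0) := by
    have := hqc.tendsto 0
    rwa [map_zero] at this
  have hsub : ∀ᶠ y in 𝓝 (0 : ι ⊕ κ → ℂ), g y = 0 → y = Φ (q y) := by
    have hU : {x : ι ⊕ κ → ℂ | (g (f x) = 0 ↔ ∀ l, x (Sum.inr l) = 0) ∧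
        f (ez (fun i => x (Sum.inl i))) = Φ (ψt (fun i => x (Sum.inl i)))} ∈
        𝓝 (0 : ι ⊕ κ → ℂ) := by
      have ht : Tendsto (fun x : ι ⊕ κ → ℂ => fun i => x (Sum.inl i)) (𝓝 0)
          (𝓝 (0 : ι → ℂ)) := by
        have : Continuous (fun x : ι ⊕ κ → ℂ => fun i => x (Sum.inl i)) :=
          continuous_pi fun i => continuous_apply _
        exact this.tendsto 0
      exact hpre.and (ht.eventually hE1)
    filter_upwards [hopenf hU] with y hy hgy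
    obtain ⟨x, ⟨hx1, hx2⟩, rfl⟩ := hy
    have h1 := eq_ez x (hx1.mp hgy)
    have h2 : ψt (fun i => x (Sum.inl i)) = q (f x) := by
      simp only [ψt]
      rw [← h1]
    rw [← h1, h2] at hx2
    exact hx2
  have hsup : ∀ᶠ y in 𝓝 (0 : ι ⊕ κ → ℂ), y = Φ (q y) → g y = 0 := by
    have hU : {x : ι → ℂ | f (ez x) = Φ (ψt x) ∧ g (f (ez x)) = 0} ∈ 𝓝 (0 : ι → ℂ) :=
      hE1.and hfez
    filter_upwards [hq0.eventually (hopenψ hU)] with y hy hyΦ
    obtain ⟨x, ⟨hx1, hx2⟩, hx3⟩ := hy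
    rw [hyΦ, ← hx3, ← hx1]
    exact hx2
  filter_upwards [hsub, hsup] with y h2 h3
  exact ⟨h2, h3⟩

end

end Pool.Agent.Lib.MP_af4f85_ag
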